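import Pool.Agent.N731.QD.Path

set_option autoImplicit false

/-!
# Project QD: crude lower bound for the contribution of a side
-/

namespace Pool.Agent.N731.QD

open MeasureTheory Set Filter Topology Complex
open Pool.Agent.R225.LP (gk ks gk_cont gk_nonneg gk_pos)
open Pool.Agent.R225.LP.FP (cyc cyc_cont)
open Pool.Agent.N275.QD
open scoped Real ENNReal ComplexConjugate

theorem pH_eq {t : ℝ} (ht : 0 < t) {b z : ℂ} (hz : 0 < z.im) :
    pH b t z = gk t (b - z) * (1 - Real.exp (-(z.im * b.im / t))) := by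
  rw [pH, if_pos hz]
  have h : ‖conj b - z‖ ^ 2 = ‖b - z‖ ^ 2 + 4 * (z.im * b.im) := by
    rw [Complex.sq_norm, Complex.sq_norm, Complex.normSq_apply, Complex.normSq_apply]
    simp only [Complex.sub_re, Complex.sub_im, Complex.conj_re, Complex.conj_im]
    ring
  unfold gk
  rw [h]
  have e : Real.exp (-((‖b - z‖ ^ 2 + 4 * (z.im * b.im)) / (4 * t))) =
      Real.exp (-(‖b - z‖ ^ 2 / (4 * t))) * Real.exp (-(z.im * b.im / t)) := by
    rw [← Real.exp_add]
    congr 1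
    field_simp
    ring
  rw [e]
  ring

theorem one_sub_exp {t x : ℝ} (ht : 0 < t) (ht1 : t ≤ 1) (hx : t ≤ x) :
    t / 2 ≤ 1 - Real.exp (-x) := by
  have h1 : Real.exp (-x) ≤ Real.exp (-t) := Real.exp_le_exp.2 (by linarith)
  have h2 : Real.exp (-t) ≤ 1 / (1 + t) := by
    rw [Real.exp_neg, ← one_div]
    exact one_div_le_one_div_of_le (by linarith) (by linarith [Real.add_one_le_exp t])
  have h3 : 1 / (1 + t) ≤ 1 - t / 2 := by
    rw [div_le_iff₀ (by linarith)]
    nlinarith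
  linarith

/-- the product of the two kernels -/
theorem num {t D A B : ℝ} {z w : ℂ} (ht : 0 < t) (ht1 : t ≤ 1) (hA : 1 ≤ A) (hB : 1 ≤ B)
    (h1 : |A - B| ≤ 1) (hD : ‖z - w‖ ≤ D) (hM : D ^ 2 / t ≤ (A + B) ^ 2 - 1)
    (hz : t ≤ z.im) (hw : t ≤ w.im) :
    Real.exp (-(D ^ 2 / t + 1)) / (16 * π ^ 2) ≤
      pH w (A * (t / (A + B))) z * pH z (B * (t / (A + B))) w := by
  have hM0 : 0 < A + B := by linarith
  have hA0 : 0 < A := by linarith
  have hB0 : 0 < B := by linarith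
  set τ₁ := A * (t / (A + B)) with hτ₁
  set τ₂ := B * (t / (A + B)) with hτ₂
  have ht1p : 0 < τ₁ := by positivity
  have ht2p : 0 < τ₂ := by positivity
  have hsum : τ₁ + τ₂ = t := by
    rw [hτ₁, hτ₂]; field_simp
  have hzp : 0 < z.im := by linarith
  have hwp : 0 < w.im := by linarith
  rw [pH_eq ht1p hzp, pH_eq ht2p hwp]
  have hzw : t * t ≤ z.im * w.im := mul_le_mul hz hw ht.le hzp.le
  have f1 : t / 2 ≤ 1 - Real.exp (-(z.im * w.im / τ₁)) := by
    refine one_sub_exp ht ht1 ?_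
    rw [le_div_iff₀ ht1p]
    nlinarith
  have f2 : t / 2 ≤ 1 - Real.exp (-(w.im * z.im / τ₂)) := by
    refine one_sub_exp ht ht1 ?_
    rw [le_div_iff₀ ht2p]
    nlinarith
  have hnorm : ‖w - z‖ = ‖z - w‖ := norm_sub_rev _ _
  have hAB : (A + B) ^ 2 - 1 ≤ 4 * (A * B) := by
    have : (A - B) ^ 2 ≤ 1 := by
      rw [← sq_abs]
      nlinarith [abs_nonneg (A - B)]
    nlinarith
  have hAB2 : 4 * (A * B) ≤ (A + B) ^ 2 := by nlinarith [sq_nonneg (A - B)]
  have hprod : τ₁ * τ₂ = A * B * t ^ 2 / (A + B) ^ 2 := by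
    rw [hτ₁, hτ₂]; field_simp
  have g1 : gk τ₁ (w - z) * gk τ₂ (z - w) =
      Real.exp (-(‖z - w‖ ^ 2 * ((A + B) ^ 2 / (4 * (A * B) * t)))) / (16 * π ^ 2 * (τ₁ * τ₂)) := by
    unfold gk
    rw [hnorm, div_mul_div_comm, ← Real.exp_add]
    congr 1
    · congr 1
      rw [hτ₁, hτ₂]
      field_simp
      ring
    · ring
  have hD0 : 0 ≤ D := le_trans (norm_nonneg _) hD
  have hr2 : ‖z - w‖ ^ 2 ≤ D ^ 2 := by
    have := norm_nonneg (z - w)
    nlinarith
  have hABp : 0 < A * B := by positivity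
  have g2 : ‖z - w‖ ^ 2 * ((A + B) ^ 2 / (4 * (A * B) * t)) ≤ D ^ 2 / t + 1 := by
    have e1 : ‖z - w‖ ^ 2 * ((A + B) ^ 2 / (4 * (A * B) * t)) ≤
        D ^ 2 * ((A + B) ^ 2 / (4 * (A * B) * t)) :=
      mul_le_mul_of_nonneg_right hr2 (by positivity)
    have e2 : D ^ 2 * ((A + B) ^ 2 / (4 * (A * B) * t)) =
        (D ^ 2 / t) * ((A + B) ^ 2 / (4 * (A * B))) := by
      field_simp
    have e3 : (D ^ 2 / t) * ((A + B) ^ 2 / (4 * (A * B))) ≤ D ^ 2 / t + 1 := by
      rw [← mul_div_assoc, div_le_iff₀ (by positivity)]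
      set q := D ^ 2 / t with hq
      have hq0 : 0 ≤ q := by positivity
      have : (A + B) ^ 2 ≤ 4 * (A * B) + 1 := by linarith
      nlinarith
    linarith
  have g3 : 16 * π ^ 2 * (τ₁ * τ₂) ≤ 4 * π ^ 2 * t ^ 2 := by
    rw [hprod]
    have : A * B * t ^ 2 / (A + B) ^ 2 ≤ t ^ 2 / 4 := by
      rw [div_le_iff₀ (by positivity)]
      nlinarith [sq_nonneg t]
    calc 16 * π ^ 2 * (A * B * t ^ 2 / (A + B) ^ 2) ≤ 16 * π ^ 2 * (t ^ 2 / 4) :=
          mul_le_mul_of_nonneg_left this (by positivity)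
      _ = 4 * π ^ 2 * t ^ 2 := by ring
  have g4 : Real.exp (-(D ^ 2 / t + 1)) / (4 * π ^ 2 * t ^ 2) ≤ gk τ₁ (w - z) * gk τ₂ (z - w) := by
    rw [g1]
    refine div_le_div₀ (Real.exp_pos _).le (Real.exp_le_exp.2 (by linarith)) (by positivity) g3
  calc Real.exp (-(D ^ 2 / t + 1)) / (16 * π ^ 2)
      = Real.exp (-(D ^ 2 / t + 1)) / (4 * π ^ 2 * t ^ 2) * (t / 2 * (t / 2)) := by
        field_simp
        ring
    _ ≤ (gk τ₁ (w - z) * gk τ₂ (z - w)) * ((1 - Real.exp (-(z.im * w.im / τ₁))) *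
          (1 - Real.exp (-(w.im * z.im / τ₂)))) := by
        refine mul_le_mul g4 (mul_le_mul f1 f2 (by positivity) (by linarith)) (by positivity) ?_
        exact mul_nonneg (gk_nonneg ht1p _) (gk_nonneg ht2p _)
    _ = _ := by ring

/-- a box -/
def bx (x y t : ℝ) : Set ℂ := {z | (x ≤ z.re ∧ z.re ≤ x + t) ∧ (y ≤ z.im ∧ z.im ≤ y + t)}

theorem bx_eq (x y t : ℝ) :
    bx x y t = Complex.measurableEquivRealProd ⁻¹' (Icc x (x + t) ×ˢ Icc y (y + t)) := by
  ext z
  simp only [bx, Complex.measurableEquivRealProd_apply, mem_ofPred_eq, mem_preimage, mem_prod,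
    mem_Icc]

theorem bx_meas (x y t : ℝ) : MeasurableSet (bx x y t) := by
  rw [bx_eq]
  exact Complex.measurableEquivRealProd.measurable (measurableSet_Icc.prod measurableSet_Icc)

theorem bx_vol (x y : ℝ) {t : ℝ} (ht : 0 < t) : volume (bx x y t) = ENNReal.ofReal (t ^ 2) := by
  rw [bx_eq, Complex.volume_preserving_equiv_real_prod.measure_preimage
    (measurableSet_Icc.prod measurableSet_Icc).nullMeasurableSet, Measure.volume_eq_prod,
    Measure.prod_prod, Real.volume_Icc, Real.volume_Icc, ← ENNReal.ofReal_mul (by linarith)]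
  congr 1
  ring

theorem norm_le_abs (z : ℂ) : ‖z‖ ≤ |z.re| + |z.im| := Complex.norm_le_abs_re_add_abs_im z

/-- the box near the end of the side -/
theorem geo1 (β l : ℝ) (hβ : 0 < β) (hβ2 : β < π) (hl : 0 < l) :
    ∃ c t₁ : ℝ, 0 ≤ c ∧ 0 < t₁ ∧ ∀ t : ℝ, 0 < t → t < t₁ → ∃ x y : ℝ, t ≤ y ∧ ∀ z ∈ bx x y t,
      l * Real.sin β ≤ z.re * Real.sin β - z.im * Real.cos β ∧ ‖z‖ ≤ dd β l + c * t := by
  have hs : 0 < Real.sin β := Real.sin_pos_of_pos_of_lt_pi hβ hβ2
  rcases le_or_gt β (π / 2) with h | h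
  · have hcos : 0 ≤ Real.cos β := Real.cos_nonneg_of_neg_pi_div_two_le_of_le (by linarith) h
    set κ := 2 * Real.cos β / Real.sin β with hκ
    have hκ0 : 0 ≤ κ := by positivity
    refine ⟨κ + 3, 1, by positivity, one_pos, fun t ht _ => ⟨l + κ * t, t, le_rfl, ?_⟩⟩
    rintro z ⟨⟨h1, h2⟩, h3, h4⟩
    constructor
    · have e1 : (l + κ * t) * Real.sin β = l * Real.sin β + 2 * Real.cos β * t := by
        rw [hκ]; field_simp
      have e2 : (l + κ * t) * Real.sin β ≤ z.re * Real.sin β :=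
        mul_le_mul_of_nonneg_right h1 hs.le
      have e3 : z.im * Real.cos β ≤ (t + t) * Real.cos β := mul_le_mul_of_nonneg_right h4 hcos
      linarith
    · have h5 : dd β l = l := by rw [dd, if_pos h]
      have h6 := norm_le_abs z
      have h7 : 0 ≤ κ * t := by positivity
      rw [abs_of_nonneg (by linarith : 0 ≤ z.re), abs_of_nonneg (by linarith : 0 ≤ z.im)] at h6
      rw [h5]
      linarith
  · have hcos : Real.cos β < 0 := Real.cos_neg_of_pi_div_two_lt_of_lt h (by linarith)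
    set d := l * Real.sin β with hd
    have hd0 : 0 < d := by positivity
    have hy : 0 < -(d * Real.cos β) := by nlinarith
    refine ⟨2, -(d * Real.cos β), by norm_num, hy, fun t ht htt =>
      ⟨d * Real.sin β, -(d * Real.cos β), htt.le, ?_⟩⟩
    rintro z ⟨⟨h1, h2⟩, h3, h4⟩
    have hsc : Real.sin β ^ 2 + Real.cos β ^ 2 = 1 := Real.sin_sq_add_cos_sq β
    constructor
    · have e2 : d * Real.sin β * Real.sin β ≤ z.re * Real.sin β :=
        mul_le_mul_of_nonneg_right h1 hs.le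
      have e3 : z.im * Real.cos β ≤ -(d * Real.cos β) * Real.cos β :=
        mul_le_mul_of_nonpos_right h3 hcos.le
      have e4 : d * Real.sin β * Real.sin β + d * Real.cos β * Real.cos β = d := by
        calc _ = d * (Real.sin β ^ 2 + Real.cos β ^ 2) := by ring
          _ = d := by rw [hsc, mul_one]
      linarith
    · have h5 : dd β l = d := by rw [dd, if_neg (not_le.2 h)]
      rw [h5]
      set F : ℂ := ⟨d * Real.sin β, -(d * Real.cos β)⟩ with hF
      have hFn : ‖F‖ = d := by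
        rw [Complex.norm_def, Complex.normSq_apply]
        have : d * Real.sin β * (d * Real.sin β) +
            -(d * Real.cos β) * -(d * Real.cos β) = d ^ 2 := by
          calc _ = d ^ 2 * (Real.sin β ^ 2 + Real.cos β ^ 2) := by ring
            _ = d ^ 2 := by rw [hsc, mul_one]
        simp only [hF]
        rw [this]
        exact Real.sqrt_sq hd0.le
      have h6 : ‖z‖ ≤ ‖F‖ + ‖z - F‖ := by
        calc ‖z‖ = ‖F + (z - F)‖ := by congr 1; ring
          _ ≤ _ := norm_add_le _ _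
      have h7 := norm_le_abs (z - F)
      have h8 : (z - F).re = z.re - d * Real.sin β := by simp [hF]
      have h9 : (z - F).im = z.im - -(d * Real.cos β) := by simp [hF]
      rw [h8, h9, abs_of_nonneg (by linarith), abs_of_nonneg (by linarith)] at h7
      linarith

theorem isOpen_Hh : IsOpen (Hh 0) := by
  have : Hh 0 = {z : ℂ | 0 < z.im} := by
    ext z; simp [Hh]
  rw [this]
  exact isOpen_lt continuous_const Complex.continuous_im

theorem mem_Hh {z : ℂ} : z ∈ Hh 0 ↔ 0 < z.im := by simp [Hh]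

/-- LB: crude lower bound -/
theorem lb (hBR : S_BR) (hLO : S_LO) (hPH : S_PH) : S_LB := by
  intro α β l hα hα2 hβ hαβ hl
  obtain ⟨c, t₁, hc, ht₁, hgeo⟩ := geo1 β l hβ (by linarith) hl
  have hsα : 0 < Real.sin α := Real.sin_pos_of_pos_of_lt_pi hα (by linarith)
  have hcα : 0 ≤ Real.cos α := Real.cos_nonneg_of_neg_pi_div_two_le_of_le (by linarith) hα2.le
  set d := dd β l with hd
  have hd0 : 0 ≤ d := by
    rw [hd, dd]
    split_ifs
    · exact hl.le
    · have : 0 < Real.sin β := Real.sin_pos_of_pos_of_lt_pi hβ (by linarith)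
      positivity
  set κ := 2 * Real.cos α / Real.sin α with hκ
  have hκ0 : 0 ≤ κ := by positivity
  set c' := c + (κ + 3) with hc'
  have hc'0 : 0 ≤ c' := by positivity
  set C := 2 * c' * d + c' ^ 2 + 1 with hC
  refine ⟨6, min (min t₁ 1) (Real.exp (-C) / (4 * π)), by positivity, ?_⟩
  intro t ht htt
  have htt1 : t < t₁ := lt_of_lt_of_le htt ((min_le_left _ _).trans (min_le_left _ _))
  have ht1 : t ≤ 1 := (lt_of_lt_of_le htt ((min_le_left _ _).trans (min_le_right _ _))).le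
  have htC : t ≤ Real.exp (-C) / (4 * π) := (lt_of_lt_of_le htt (min_le_right _ _)).le
  set D := d + c' * t with hD
  have hD0 : 0 ≤ D := by positivity
  have hDC : D ^ 2 / t + 1 ≤ d ^ 2 / t + C := by
    have : D ^ 2 / t = d ^ 2 / t + 2 * c' * d + c' ^ 2 * t := by
      rw [hD]; field_simp; ring
    rw [this, hC]
    nlinarith [sq_nonneg c']
  have hlim : Tendsto (fun M : ℕ => (M : ℝ) ^ 2 - 1) atTop atTop := by
    refine tendsto_atTop_add_const_right _ _ ?_
    exact (tendsto_pow_atTop two_ne_zero).comp tendsto_natCast_atTop_atTop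
  filter_upwards [eventually_ge_atTop 2, hlim.eventually_ge_atTop (D ^ 2 / t)] with M hM2 hM
  obtain ⟨j, n, hMe, hjn, hnj⟩ : ∃ j n : ℕ, M = n + (j + 1) + 1 ∧ j ≤ n ∧ n ≤ j + 1 :=
    ⟨M / 2 - 1, M - M / 2 - 1, by omega, by omega, by omega⟩
  subst hMe
  obtain ⟨x, y, hy, hB₁⟩ := hgeo t ht htt1
  set B₁ := bx x y t with hB1
  set B₂ := bx (-(κ * t) - t) t t with hB2
  have hm1 : MeasurableSet B₁ := bx_meas _ _ _
  have hm2 : MeasurableSet B₂ := bx_meas _ _ _
  have hs : 0 < t / (((n + (j + 1) : ℕ) : ℝ) + 1) := by positivity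
  have hB₂ : ∀ w ∈ B₂, w ∉ Hh α ∧ ‖w‖ ≤ (κ + 3) * t := by
    rintro w ⟨⟨h1, h2⟩, h3, h4⟩
    have hκt : 0 ≤ κ * t := by positivity
    constructor
    · intro h
      have h5 : 0 < w.re * Real.sin α + w.im * Real.cos α := h
      have e2 : w.re * Real.sin α ≤ (-(κ * t)) * Real.sin α :=
        mul_le_mul_of_nonneg_right (by linarith) hsα.le
      have e1 : (-(κ * t)) * Real.sin α = -(2 * Real.cos α * t) := by
        rw [hκ]; field_simp
      have e3 : w.im * Real.cos α ≤ (t + t) * Real.cos α := mul_le_mul_of_nonneg_right h4 hcα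
      linarith
    · have h6 := norm_le_abs w
      rw [abs_of_nonpos (by linarith : w.re ≤ 0), abs_of_nonneg (by linarith : 0 ≤ w.im)] at h6
      linarith
  have hqs : ∀ i, MeasurableSet (qs B₂ (Hh 0) j i) := by
    intro i
    unfold qs
    split_ifs
    · exact hm2
    · exact isOpen_Hh.measurableSet
  have hlow := cyc_lower hs hm1 (qs B₂ (Hh 0) j) hqs (n + (j + 1))
    {W : Fin (n + (j + 1) + 1) → ℂ | (∀ i, W i ∈ Hh 0) ∧ (∃ i, W i ∉ Hh α) ∧
        ∃ i, l * Real.sin β ≤ (W i).re * Real.sin β - (W i).im * Real.cos β} (by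
      intro W h0 hW
      have hj : W (Fin.succ ⟨j, by omega⟩) ∈ B₂ := by
        have := hW ⟨j, by omega⟩
        simpa [qs] using this
      refine ⟨?_, ⟨_, (hB₂ _ hj).1⟩, ⟨0, (hB₁ _ h0).1⟩⟩
      intro i
      refine Fin.cases ?_ (fun i => ?_) i
      · rw [mem_Hh]
        exact lt_of_lt_of_le (lt_of_lt_of_le ht hy) h0.2.1
      · have := hW i
        unfold qs at this
        split_ifs at this with hij
        · rw [mem_Hh]
          exact lt_of_lt_of_le ht this.2.1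
        · exact this)
  simp_rw [kq_split] at hlow
  set c₀ := Real.exp (-(D ^ 2 / t + 1)) / (16 * π ^ 2) with hc₀
  have hc₀0 : 0 < c₀ := by positivity
  have hker : ∀ z ∈ B₁, ∀ w ∈ B₂, ENNReal.ofReal c₀ ≤
      ks (Hh 0) (t / (((n + (j + 1) : ℕ) : ℝ) + 1)) j z w *
        ks (Hh 0) (t / (((n + (j + 1) : ℕ) : ℝ) + 1)) n w z := by
    intro z hz w hw
    have hzi : t ≤ z.im := hy.trans hz.2.1
    have hwi : t ≤ w.im := hw.2.1
    have hz0 : z ∈ Hh 0 := mem_Hh.2 (by linarith)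
    have hw0 : w ∈ Hh 0 := mem_Hh.2 (by linarith)
    have k1 := hLO (Hh 0) w (pH w) isOpen_Hh (hPH w (by linarith))
      (t / (((n + (j + 1) : ℕ) : ℝ) + 1)) j z hs hz0
    have k2 := hLO (Hh 0) z (pH z) isOpen_Hh (hPH z (by linarith))
      (t / (((n + (j + 1) : ℕ) : ℝ) + 1)) n w hs hw0
    have hsum : (((n + (j + 1) : ℕ) : ℝ) + 1) = ((j : ℝ) + 1) + ((n : ℝ) + 1) := by
      push_cast; ring
    have hzw : ‖z - w‖ ≤ D := by
      have h1 := norm_sub_le z w
      have h2 := (hB₁ z hz).2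
      have h3 := (hB₂ w hw).2
      rw [hD, hc']
      linarith
    have habs : |((j : ℝ) + 1) - ((n : ℝ) + 1)| ≤ 1 := by
      have h1 : (j : ℝ) ≤ n := by exact_mod_cast hjn
      have h2 : (n : ℝ) ≤ j + 1 := by exact_mod_cast hnj
      rw [abs_le]
      constructor <;> linarith
    have hM' : D ^ 2 / t ≤ (((j : ℝ) + 1) + ((n : ℝ) + 1)) ^ 2 - 1 := by
      have h1 : ((n + (j + 1) + 1 : ℕ) : ℝ) = ((j : ℝ) + 1) + ((n : ℝ) + 1) := by
        push_cast; ring
      rw [← h1]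
      exact hM
    have k3 := num (z := z) (w := w) (A := (j : ℝ) + 1) (B := (n : ℝ) + 1) ht ht1
      (by linarith [Nat.cast_nonneg (α := ℝ) j]) (by linarith [Nat.cast_nonneg (α := ℝ) n])
      habs hzw hM' hzi hwi
    rw [← hsum] at k3
    have hpos1 : 0 ≤ pH w (((j : ℝ) + 1) * (t / (((n + (j + 1) : ℕ) : ℝ) + 1))) z :=
      (hPH w (by linarith)).nonneg _ _ (by positivity)
    calc ENNReal.ofReal c₀ ≤ ENNReal.ofReal
          (pH w (((j : ℝ) + 1) * (t / (((n + (j + 1) : ℕ) : ℝ) + 1))) z *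
            pH z (((n : ℝ) + 1) * (t / (((n + (j + 1) : ℕ) : ℝ) + 1))) w) :=
          ENNReal.ofReal_le_ofReal k3
      _ = _ := ENNReal.ofReal_mul hpos1
      _ ≤ _ := mul_le_mul' k1 k2
  have hint : ENNReal.ofReal c₀ * ENNReal.ofReal (t ^ 2) * ENNReal.ofReal (t ^ 2) ≤
      ∫⁻ z in B₁, ∫⁻ w in B₂, ks (Hh 0) (t / (((n + (j + 1) : ℕ) : ℝ) + 1)) j z w *
        ks (Hh 0) (t / (((n + (j + 1) : ℕ) : ℝ) + 1)) n w z := by
    calc ENNReal.ofReal c₀ * ENNReal.ofReal (t ^ 2) * ENNReal.ofReal (t ^ 2)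
        = ∫⁻ z in B₁, ∫⁻ w in B₂, ENNReal.ofReal c₀ := by
          rw [lintegral_const, lintegral_const, Measure.restrict_apply MeasurableSet.univ,
            Measure.restrict_apply MeasurableSet.univ, univ_inter, univ_inter, hB1, hB2,
            bx_vol _ _ ht, bx_vol _ _ ht]
      _ ≤ _ := by
          refine setLIntegral_mono' hm1 fun z hz => ?_
          exact setLIntegral_mono' hm2 fun w hw => hker z hz w hw
  have hfin := hBR α β l t (n + (j + 1)) hα hβ hαβ hl ht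
  have hkey : ENNReal.ofReal (4 * π * t * (c₀ * t ^ 2 * t ^ 2)) ≤
      ENNReal.ofReal (Nn α β l t (n + (j + 1) + 1)) := by
    have e0 : ENNReal.ofReal (4 * π * t * (c₀ * t ^ 2 * t ^ 2)) = ENNReal.ofReal (4 * π * t) *
        (ENNReal.ofReal c₀ * ENNReal.ofReal (t ^ 2) * ENNReal.ofReal (t ^ 2)) := by
      rw [← ENNReal.ofReal_mul hc₀0.le, ← ENNReal.ofReal_mul (by positivity),
        ← ENNReal.ofReal_mul (by positivity)]
    rw [hfin, e0]
    exact mul_le_mul' le_rfl (hint.trans hlow)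
  have hpos : 0 < 4 * π * t * (c₀ * t ^ 2 * t ^ 2) := by positivity
  have hreal : 4 * π * t * (c₀ * t ^ 2 * t ^ 2) ≤ Nn α β l t (n + (j + 1) + 1) := by
    rcases (ENNReal.ofReal_le_ofReal_iff').1 hkey with h | h
    · exact h
    · linarith
  refine le_trans ?_ hreal
  have e1 : Real.exp (-(d ^ 2 / t + C)) ≤ Real.exp (-(D ^ 2 / t + 1)) :=
    Real.exp_le_exp.2 (by linarith)
  have e2 : Real.exp (-(d ^ 2 / t + C)) = Real.exp (-(d ^ 2 / t)) * Real.exp (-C) := by
    rw [← Real.exp_add]; congr 1; ring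
  have e3 : 4 * π * t ≤ Real.exp (-C) := by
    rw [le_div_iff₀ (by positivity)] at htC
    linarith
  calc t ^ 6 * Real.exp (-(d ^ 2 / t))
      = (t ^ 5 / (4 * π)) * ((4 * π * t) * Real.exp (-(d ^ 2 / t))) := by
        field_simp
    _ ≤ (t ^ 5 / (4 * π)) * (Real.exp (-C) * Real.exp (-(d ^ 2 / t))) := by gcongr
    _ = (t ^ 5 / (4 * π)) * Real.exp (-(d ^ 2 / t + C)) := by rw [e2]; ring
    _ ≤ (t ^ 5 / (4 * π)) * Real.exp (-(D ^ 2 / t + 1)) := by gcongr
    _ = 4 * π * t * (c₀ * t ^ 2 * t ^ 2) := by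
        rw [hc₀]
        field_simp
        ring

end Pool.Agent.N731.QD
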