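import Pool.Agent.N275.QD.Def

set_option autoImplicit false

/-!
# Chains with a marked point
-/

namespace Pool.Agent.N731.QD

open MeasureTheory Set Filter Topology Complex
open Pool.Agent.R225.LP (gk ks gk_cont gk_nonneg cons_meas lint_cons)
open Pool.Agent.R225.LP.FP (cyc cyc_cont)
open scoped Real ENNReal ComplexConjugate

theorem ks_meas {Q : Set ℂ} (s : ℝ) :
    ∀ n : ℕ, Measurable (fun q : ℂ × ℂ => ks Q s n q.1 q.2)
  | 0 => ((gk_cont s).comp (continuous_snd.sub continuous_fst)).measurable.ennreal_ofReal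
  | n + 1 => by
      have h : Measurable (fun p : (ℂ × ℂ) × ℂ =>
          ENNReal.ofReal (gk s (p.2 - p.1.1)) * ks Q s n p.2 p.1.2) := by
        refine Measurable.mul ?_ ?_
        · exact ((gk_cont s).comp
            (continuous_snd.sub (continuous_fst.comp continuous_fst))).measurable.ennreal_ofReal
        · exact (ks_meas s n).comp (measurable_snd.prodMk (measurable_snd.comp measurable_fst))
      exact h.lintegral_prod_right'

/-- the kernel of the chain whose `i`-th intermediate point is in `Qs i` -/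
noncomputable def kq (s : ℝ) : ℕ → (ℕ → Set ℂ) → ℂ → ℂ → ℝ≥0∞
  | 0, _, a, b => ENNReal.ofReal (gk s (b - a))
  | n + 1, Qs, a, b => ∫⁻ z in Qs 0, ENNReal.ofReal (gk s (z - a)) * kq s n (fun i => Qs (i + 1)) z b

theorem kq_zero (s : ℝ) (Qs : ℕ → Set ℂ) (a b : ℂ) :
    kq s 0 Qs a b = ENNReal.ofReal (gk s (b - a)) := rfl

theorem kq_succ (s : ℝ) (n : ℕ) (Qs : ℕ → Set ℂ) (a b : ℂ) :
    kq s (n + 1) Qs a b =
      ∫⁻ z in Qs 0, ENNReal.ofReal (gk s (z - a)) * kq s n (fun i => Qs (i + 1)) z b := rfl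

theorem ks_succ (Q : Set ℂ) (s : ℝ) (n : ℕ) (a b : ℂ) :
    ks Q s (n + 1) a b = ∫⁻ z in Q, ENNReal.ofReal (gk s (z - a)) * ks Q s n z b := rfl

theorem kq_const (s : ℝ) (Q : Set ℂ) : ∀ (n : ℕ) (a b : ℂ), kq s n (fun _ => Q) a b = ks Q s n a b
  | 0, _, _ => rfl
  | n + 1, a, b => by
      rw [kq_succ, ks_succ]
      refine lintegral_congr fun z => ?_
      rw [kq_const s Q n z b]

/-- all sets equal to `Q`, apart from the one with the number `j` -/
def qs (B Q : Set ℂ) (j : ℕ) : ℕ → Set ℂ := fun i => if i = j then B else Q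

theorem qs_zero (B Q : Set ℂ) : (fun i => qs B Q 0 (i + 1)) = fun _ => Q := by
  funext i; simp [qs]

theorem qs_succ (B Q : Set ℂ) (j : ℕ) : (fun i => qs B Q (j + 1) (i + 1)) = qs B Q j := by
  funext i; simp [qs]

/-- splitting at the marked point -/
theorem kq_split (s : ℝ) (B Q : Set ℂ) (n : ℕ) : ∀ (j : ℕ) (a b : ℂ),
    kq s (n + (j + 1)) (qs B Q j) a b = ∫⁻ z in B, ks Q s j a z * ks Q s n z b
  | 0, a, b => by
      rw [show n + (0 + 1) = n + 1 from rfl, kq_succ, qs_zero]
      have : qs B Q 0 0 = B := by simp [qs]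
      rw [this]
      refine lintegral_congr fun z => ?_
      rw [kq_const]
      rfl
  | j + 1, a, b => by
      rw [show n + (j + 1 + 1) = (n + (j + 1)) + 1 from rfl, kq_succ, qs_succ]
      have : qs B Q (j + 1) 0 = Q := by simp [qs]
      rw [this]
      simp_rw [kq_split s B Q n j]
      have e1 : ∀ z : ℂ, ENNReal.ofReal (gk s (z - a)) * ∫⁻ w in B, ks Q s j z w * ks Q s n w b =
          ∫⁻ w in B, ENNReal.ofReal (gk s (z - a)) * (ks Q s j z w * ks Q s n w b) := by
        intro z
        rw [lintegral_const_mul]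
        exact ((ks_meas s j).comp (measurable_const.prodMk measurable_id)).mul
          ((ks_meas s n).comp (measurable_id.prodMk measurable_const))
      simp_rw [e1]
      rw [lintegral_lintegral_swap]
      · refine lintegral_congr fun w => ?_
        rw [ks_succ, ← lintegral_mul_const]
        · refine lintegral_congr fun z => ?_
          rw [mul_assoc]
        · refine Measurable.mul ?_ ?_
          · exact ((gk_cont s).comp (continuous_id.sub continuous_const)).measurable.ennreal_ofReal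
          · exact (ks_meas s j).comp (measurable_id.prodMk measurable_const)
      · refine Measurable.aemeasurable ?_
        refine Measurable.mul ?_ (Measurable.mul ?_ ?_)
        · exact ((gk_cont s).comp
            (continuous_fst.sub continuous_const)).measurable.ennreal_ofReal
        · exact ks_meas s j
        · exact (ks_meas s n).comp (measurable_snd.prodMk measurable_const)

/-- the weight of a path from `a` to `b` through the points `V` -/
noncomputable def pp (s : ℝ) : (n : ℕ) → ℂ → (Fin n → ℂ) → ℂ → ℝ≥0∞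
  | 0, a, _, b => ENNReal.ofReal (gk s (b - a))
  | n + 1, a, V, b => ENNReal.ofReal (gk s (V 0 - a)) * pp s n (V 0) (Fin.tail V) b

theorem pp_meas (s : ℝ) : ∀ n : ℕ,
    Measurable (fun q : ℂ × (Fin n → ℂ) × ℂ => pp s n q.1 q.2.1 q.2.2)
  | 0 => ((gk_cont s).comp ((continuous_snd.comp continuous_snd).sub
      continuous_fst)).measurable.ennreal_ofReal
  | n + 1 => by
      simp only [pp]
      have h0 : Measurable (fun q : ℂ × (Fin (n + 1) → ℂ) × ℂ => q.2.1 0) :=
        (measurable_pi_apply 0).comp (measurable_fst.comp measurable_snd)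
      refine Measurable.mul ?_ ?_
      · exact ((gk_cont s).measurable.comp (h0.sub measurable_fst)).ennreal_ofReal
      · have h1 : Measurable (fun q : ℂ × (Fin (n + 1) → ℂ) × ℂ => Fin.tail q.2.1) := by
          refine measurable_pi_lambda _ fun i => ?_
          exact (measurable_pi_apply i.succ).comp (measurable_fst.comp measurable_snd)
        exact (pp_meas s n).comp (h0.prodMk (h1.prodMk (measurable_snd.comp measurable_snd)))

theorem pp_zero (s : ℝ) (a : ℂ) (V : Fin 0 → ℂ) (b : ℂ) :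
    pp s 0 a V b = ENNReal.ofReal (gk s (b - a)) := rfl

theorem pp_succ (s : ℝ) (n : ℕ) (a : ℂ) (V : Fin (n + 1) → ℂ) (b : ℂ) :
    pp s (n + 1) a V b = ENNReal.ofReal (gk s (V 0 - a)) * pp s n (V 0) (Fin.tail V) b := rfl

theorem pp_meas2 (s : ℝ) (n : ℕ) (a b : ℂ) : Measurable (fun V : Fin n → ℂ => pp s n a V b) := by
  have h := (pp_meas s n).comp
    ((measurable_const (a := a)).prodMk ((measurable_id (α := Fin n → ℂ)).prodMk
      (measurable_const (a := b))))
  exact h

attribute [irreducible] pp kq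

theorem in_meas {Qs : ℕ → Set ℂ} (hQ : ∀ i, MeasurableSet (Qs i)) (n : ℕ) :
    MeasurableSet {V : Fin n → ℂ | ∀ i : Fin n, V i ∈ Qs i} := by
  have : {V : Fin n → ℂ | ∀ i : Fin n, V i ∈ Qs i} =
      ⋂ i : Fin n, (fun V : Fin n → ℂ => V i) ⁻¹' (Qs i) := by
    ext V; simp
  rw [this]
  exact MeasurableSet.iInter fun i => measurable_pi_apply i (hQ i)

/-- the kernel as an integral over paths -/
theorem kq_int (s : ℝ) : ∀ (n : ℕ) (Qs : ℕ → Set ℂ) (_ : ∀ i, MeasurableSet (Qs i)) (a b : ℂ),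
    kq s n Qs a b = ∫⁻ V : Fin n → ℂ, pp s n a V b *
      {V : Fin n → ℂ | ∀ i : Fin n, V i ∈ Qs i}.indicator 1 V
  | 0, Qs, _, a, b => by
      have h : {V : Fin 0 → ℂ | ∀ i : Fin 0, V i ∈ Qs i} = univ := by
        ext V; simp
      rw [h]
      simp only [kq_zero, pp_zero, indicator_univ, Pi.one_apply, mul_one]
      rw [lintegral_const, volume_pi, Measure.pi_univ]
      simp
  | n + 1, Qs, hQ, a, b => by
      have hm : ∀ z : ℂ, Measurable (fun V : Fin n → ℂ => pp s n z V b *
          {V : Fin n → ℂ | ∀ i : Fin n, V i ∈ Qs (i + 1)}.indicator 1 V) := by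
        intro z
        exact (pp_meas2 s n z b).mul (measurable_one.indicator (in_meas (fun i => hQ (i + 1)) n))
      have hF : Measurable (fun V : Fin (n + 1) → ℂ => pp s (n + 1) a V b *
          {V : Fin (n + 1) → ℂ | ∀ i : Fin (n + 1), V i ∈ Qs i}.indicator 1 V) := by
        exact (pp_meas2 s (n + 1) a b).mul (measurable_one.indicator (in_meas hQ (n + 1)))
      rw [kq_succ, volume_pi, lint_cons n hF, ← lintegral_indicator (hQ 0)]
      refine lintegral_congr fun z => ?_
      rw [← volume_pi]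
      have e : ∀ V : Fin n → ℂ, pp s (n + 1) a (Fin.cons z V) b *
          {V : Fin (n + 1) → ℂ | ∀ i : Fin (n + 1), V i ∈ Qs i}.indicator 1 (Fin.cons z V) =
          (Qs 0).indicator (fun z => ENNReal.ofReal (gk s (z - a)) * (pp s n z V b *
            {V : Fin n → ℂ | ∀ i : Fin n, V i ∈ Qs (i + 1)}.indicator 1 V)) z := by
        intro V
        have h3 : (Fin.cons z V : Fin (n + 1) → ℂ) ∈
            {V : Fin (n + 1) → ℂ | ∀ i : Fin (n + 1), V i ∈ Qs i} ↔
            z ∈ Qs 0 ∧ V ∈ {V : Fin n → ℂ | ∀ i : Fin n, V i ∈ Qs (i + 1)} := by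
          simp only [mem_ofPred_eq]
          rw [Fin.forall_fin_succ]
          simp
        simp only [pp_succ, Fin.cons_zero, Fin.tail_cons]
        by_cases hz : z ∈ Qs 0
        · rw [indicator_of_mem hz]
          by_cases hV : V ∈ {V : Fin n → ℂ | ∀ i : Fin n, V i ∈ Qs (i + 1)}
          · rw [indicator_of_mem (h3.2 ⟨hz, hV⟩), indicator_of_mem hV]
            simp
          · rw [indicator_of_notMem (fun h => hV (h3.1 h).2), indicator_of_notMem hV]
            simp
        · rw [indicator_of_notMem (fun h => hz (h3.1 h).1), indicator_of_notMem hz]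
          simp
      simp_rw [e]
      by_cases hz : z ∈ Qs 0
      · simp only [indicator_of_mem hz]
        rw [lintegral_const_mul _ (hm z), kq_int s n (fun i => Qs (i + 1)) (fun i => hQ (i + 1)) z b]
      · simp only [indicator_of_notMem hz]
        simp

theorem pp_prod {s : ℝ} (hs : 0 < s) : ∀ (n : ℕ) (a : ℂ) (V : Fin n → ℂ) (b : ℂ),
    pp s n a V b = ENNReal.ofReal ((∏ i : Fin n, gk s ((Fin.cons a V : Fin (n + 1) → ℂ) i.succ -
      (Fin.cons a V : Fin (n + 1) → ℂ) i.castSucc)) *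
        gk s (b - (Fin.cons a V : Fin (n + 1) → ℂ) (Fin.last n)))
  | 0, a, V, b => by simp [pp_zero]
  | n + 1, a, V, b => by
      have hV : (Fin.cons (V 0) (Fin.tail V) : Fin (n + 1) → ℂ) = V := Fin.cons_self_tail V
      rw [pp_succ, pp_prod hs n (V 0) (Fin.tail V) b, hV, ← ENNReal.ofReal_mul (gk_nonneg hs _)]
      congr 1
      rw [Fin.prod_univ_succ, ← mul_assoc]
      congr 1

theorem cyc_pp {s : ℝ} (hs : 0 < s) (n : ℕ) (a : ℂ) (V : Fin n → ℂ) :
    ENNReal.ofReal (cyc s (Fin.cons a V : Fin (n + 1) → ℂ)) = pp s n a V a := by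
  rw [pp_prod hs, cyc, Fin.prod_univ_castSucc]
  congr 2
  · refine Finset.prod_congr rfl fun i _ => ?_
    rw [Fin.coeSucc_eq_succ]
  · rw [Fin.last_add_one]
    rfl

/-- lower bound for cyclic chains with points in given sets -/
theorem cyc_lower {s : ℝ} (hs : 0 < s) {B₁ : Set ℂ} (h1 : MeasurableSet B₁) (Qs : ℕ → Set ℂ)
    (hqs : ∀ i, MeasurableSet (Qs i)) (m : ℕ) (E : Set (Fin (m + 1) → ℂ))
    (hE : ∀ W : Fin (m + 1) → ℂ, W 0 ∈ B₁ → (∀ i : Fin m, W i.succ ∈ Qs i) → W ∈ E) :
    ∫⁻ z in B₁, kq s m Qs z z ≤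
      ∫⁻ W : Fin (m + 1) → ℂ, ENNReal.ofReal (cyc s W) * E.indicator 1 W := by
  have hm2 : MeasurableSet {W : Fin (m + 1) → ℂ | ∀ i : Fin m, W i.succ ∈ Qs i} := by
    have : {W : Fin (m + 1) → ℂ | ∀ i : Fin m, W i.succ ∈ Qs i} =
        ⋂ i : Fin m, (fun W : Fin (m + 1) → ℂ => W i.succ) ⁻¹' (Qs i) := by
      ext V; simp
    rw [this]
    exact MeasurableSet.iInter fun i => measurable_pi_apply i.succ (hqs i)
  have hGm : Measurable (fun W : Fin (m + 1) → ℂ => ENNReal.ofReal (cyc s W) *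
    ({W : Fin (m + 1) → ℂ | W 0 ∈ B₁}.indicator 1 W *
      {W : Fin (m + 1) → ℂ | ∀ i : Fin m, W i.succ ∈ Qs i}.indicator 1 W)) := by
    refine (cyc_cont s).measurable.ennreal_ofReal.mul (Measurable.mul ?_ ?_)
    · exact measurable_one.indicator (measurable_pi_apply 0 h1)
    · exact measurable_one.indicator hm2
  have hle : ∫⁻ W : Fin (m + 1) → ℂ, ENNReal.ofReal (cyc s W) *
    ({W : Fin (m + 1) → ℂ | W 0 ∈ B₁}.indicator 1 W *
      {W : Fin (m + 1) → ℂ | ∀ i : Fin m, W i.succ ∈ Qs i}.indicator 1 W) ≤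
      ∫⁻ W : Fin (m + 1) → ℂ, ENNReal.ofReal (cyc s W) * E.indicator 1 W := by
    refine lintegral_mono fun W => ?_
    refine mul_le_mul' le_rfl ?_
    by_cases hW0 : W ∈ {W : Fin (m + 1) → ℂ | W 0 ∈ B₁}
    · by_cases hW1 : W ∈ {W : Fin (m + 1) → ℂ | ∀ i : Fin m, W i.succ ∈ Qs i}
      · rw [indicator_of_mem (hE W hW0 hW1), indicator_of_mem hW0, indicator_of_mem hW1]
        simp
      · rw [indicator_of_notMem hW1]; simp
    · rw [indicator_of_notMem hW0]; simp
  refine le_trans (le_of_eq ?_) hle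
  rw [volume_pi, lint_cons m hGm, ← lintegral_indicator h1]
  refine lintegral_congr fun z => ?_
  rw [← volume_pi]
  by_cases hz : z ∈ B₁
  · rw [indicator_of_mem hz, kq_int s _ _ hqs]
    refine lintegral_congr fun V => ?_
    rw [cyc_pp hs, indicator_of_mem (show (Fin.cons z V : Fin (m + 1) → ℂ) ∈
      {W : Fin (m + 1) → ℂ | W 0 ∈ B₁} from by simpa using hz)]
    simp only [Pi.one_apply, one_mul]
    congr 1
  · rw [indicator_of_notMem hz]
    symm
    rw [lintegral_congr (g := fun _ => (0 : ℝ≥0∞)), lintegral_zero]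
    intro V
    rw [indicator_of_notMem (show (Fin.cons z V : Fin (m + 1) → ℂ) ∉
      {W : Fin (m + 1) → ℂ | W 0 ∈ B₁} from by simpa using hz), zero_mul, mul_zero]

end Pool.Agent.N731.QD
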